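import Pool.Agent.Lib.P49a735.Own

set_option autoImplicit false
open Polynomial

namespace Pool.Agent.Results.MP_49a735_an.CrossZeros

open Pool.Agent.P49a735Own

/-- Let `q` be the `n`-fold center divided difference (step `l`, derivative if `l = 0`) of
`p_N = ∏_{k=-N}^{N} (X - k)`, as a complex polynomial, with `N` any natural number, `l` any real
number and `n ≤ 2 N + 1`. Then `q` is not zero, has degree `2 N + 1 - n`, and every zero of `q`
which is not real is purely imaginary. Moreover, if `n |l| ≥ N + 1`, then all zeros of `q` are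
purely imaginary, and if `|l| < 1/2`, then all zeros of `q` are real. -/
theorem result (N : ℕ) (l : ℝ) (n : ℕ) (hn : n ≤ 2 * N + 1) :
    (cdd l)^[n] (pPoly N) ≠ 0 ∧ ((cdd l)^[n] (pPoly N)).natDegree = 2 * N + 1 - n ∧
    (∀ z : ℂ, ((cdd l)^[n] (pPoly N)).IsRoot z → z.im ≠ 0 → z.re = 0) ∧
    ((N : ℝ) + 1 ≤ n * |l| → ∀ z : ℂ, ((cdd l)^[n] (pPoly N)).IsRoot z → z.re = 0) ∧
    (|l| < 1 / 2 → ∀ z : ℂ, ((cdd l)^[n] (pPoly N)).IsRoot z → z.im = 0) := by
  obtain ⟨h1, h2, h3, h4, h5, _⟩ := main_all N l n hn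
  exact ⟨h1, h2, h3, h4, h5⟩

end Pool.Agent.Results.MP_49a735_an.CrossZeros
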